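import Pool.Agent.H950.ON.St

/-!
# S_loc (helper399, for helper950): the local FKG lattice condition implies the lattice condition
-/

set_option autoImplicit false

namespace Pool.Agent.H399.ON

section

variable {α : Type*} [DecidableEq α]

theorem cancel4 {x y p q a b : ℝ} (ha : 0 < a) (hb : 0 < b) (hx : 0 ≤ x) (hp : 0 ≤ p)
    (hy : 0 ≤ y) (hq : 0 ≤ q)
    (h1 : x * a ≤ p * b) (h2 : b * y ≤ a * q) : x * y ≤ p * q := by
  have h3 : (x * a) * (b * y) ≤ (p * b) * (a * q) :=
    mul_le_mul h1 h2 (mul_nonneg hb.le hy) (mul_nonneg hp hb.le)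
  have h4 : (a * b) * (x * y) ≤ (a * b) * (p * q) := by
    calc (a * b) * (x * y) = (x * a) * (b * y) := by ring
      _ ≤ (p * b) * (a * q) := h3
      _ = (a * b) * (p * q) := by ring
  exact le_of_mul_le_mul_left h4 (mul_pos ha hb)

theorem one_step (V : Finset α) (f : Finset α → ℝ) (hf : ∀ A ⊆ V, 0 < f A)
    (hloc : ∀ A ⊆ V, ∀ u ∈ V, ∀ v ∈ V, u ∉ A → v ∉ A → u ≠ v →
      f (insert u A) * f (insert v A) ≤ f A * f (insert u (insert v A)))
    (D : Finset α) (hD : D ⊆ V) (u : α) (hu : u ∈ V) (huD : u ∉ D) (Y : Finset α) :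
    Y ⊆ V → u ∉ Y → f (insert u D) * f (D ∪ Y) ≤ f D * f (insert u (D ∪ Y)) := by
  induction Y using Finset.induction_on with
  | empty =>
    intro _ _
    rw [Finset.union_empty, mul_comm]
  | insert v Y hv ih =>
    intro hY huY
    have hY' : Y ⊆ V := (Finset.subset_insert v Y).trans hY
    have hvV : v ∈ V := hY (Finset.mem_insert_self v Y)
    have huY' : u ∉ Y := fun h => huY (Finset.mem_insert_of_mem h)
    have huv : u ≠ v := fun h => huY (h ▸ Finset.mem_insert_self v Y)
    have h1 := ih hY' huY'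
    by_cases hvD : v ∈ D
    · have h2 : D ∪ insert v Y = D ∪ Y := by
        rw [Finset.union_insert, Finset.insert_eq_of_mem (Finset.mem_union_left _ hvD)]
      rw [h2]
      exact h1
    · have hE : D ∪ Y ⊆ V := Finset.union_subset hD hY'
      have huE : u ∉ D ∪ Y := by
        rw [Finset.mem_union]
        tauto
      have hvE : v ∉ D ∪ Y := by
        rw [Finset.mem_union]
        tauto
      have h2 := hloc (D ∪ Y) hE u hu v hvV huE hvE huv
      rw [Finset.union_insert]
      have hs1 : insert u (D ∪ Y) ⊆ V := Finset.insert_subset hu hE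
      have hs2 : insert v (D ∪ Y) ⊆ V := Finset.insert_subset hvV hE
      have hs3 : insert u (insert v (D ∪ Y)) ⊆ V := Finset.insert_subset hu hs2
      exact cancel4 (hf _ hE) (hf _ hs1) (hf _ (Finset.insert_subset hu hD)).le (hf _ hD).le
        (hf _ hs2).le (hf _ hs3).le h1 h2

theorem lattice_cond (V : Finset α) (f : Finset α → ℝ) (hf : ∀ A ⊆ V, 0 < f A)
    (hloc : ∀ A ⊆ V, ∀ u ∈ V, ∀ v ∈ V, u ∉ A → v ∉ A → u ≠ v →
      f (insert u A) * f (insert v A) ≤ f A * f (insert u (insert v A)))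
    (C Y : Finset α) (hC : C ⊆ V) (hY : Y ⊆ V) (X : Finset α) :
    X ⊆ V → (∀ u ∈ X, u ∉ C ∧ u ∉ Y) → f (C ∪ X) * f (C ∪ Y) ≤ f C * f (C ∪ X ∪ Y) := by
  induction X using Finset.induction_on with
  | empty =>
    intro _ _
    rw [Finset.union_empty]
  | insert u X hu ih =>
    intro hX hd
    have hX' : X ⊆ V := (Finset.subset_insert u X).trans hX
    have huV : u ∈ V := hX (Finset.mem_insert_self u X)
    have h1 := ih hX' fun w hw => hd w (Finset.mem_insert_of_mem hw)
    obtain ⟨huC, huY⟩ := hd u (Finset.mem_insert_self u X)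
    have hCX : C ∪ X ⊆ V := Finset.union_subset hC hX'
    have huCX : u ∉ C ∪ X := by
      rw [Finset.mem_union]
      tauto
    have h2 := one_step V f hf hloc (C ∪ X) hCX u huV huCX Y hY huY
    rw [Finset.union_insert, Finset.insert_union]
    have hs1 : C ∪ X ∪ Y ⊆ V := Finset.union_subset hCX hY
    have hs2 : insert u (C ∪ X) ⊆ V := Finset.insert_subset huV hCX
    have hs3 : insert u (C ∪ X ∪ Y) ⊆ V := Finset.insert_subset huV hs1
    have h3 : f (C ∪ Y) * f (insert u (C ∪ X)) ≤ f C * f (insert u (C ∪ X ∪ Y)) := by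
      refine cancel4 (hf _ hCX) (hf _ hs1) (hf _ (Finset.union_subset hC hY)).le (hf _ hC).le
        (hf _ hs2).le (hf _ hs3).le ?_ ?_
      · rw [mul_comm]
        exact h1
      · rw [mul_comm]
        exact h2
    rw [mul_comm]
    exact h3

end

theorem t_loc : Pool.Agent.H950.ON.S_loc := by
  intro V f hf hloc A hA B hB
  have h := lattice_cond V f hf hloc (A ∩ B) (B \ A) (Finset.inter_subset_left.trans hA)
    (Finset.sdiff_subset.trans hB) (A \ B) (Finset.sdiff_subset.trans hA) ?_
  · have e1 : A ∩ B ∪ A \ B = A := by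
      ext x
      simp only [Finset.mem_union, Finset.mem_inter, Finset.mem_sdiff]
      tauto
    have e2 : A ∩ B ∪ B \ A = B := by
      ext x
      simp only [Finset.mem_union, Finset.mem_inter, Finset.mem_sdiff]
      tauto
    have e3 : A ∪ B \ A = A ∪ B := by
      ext x
      simp only [Finset.mem_union, Finset.mem_sdiff]
      tauto
    rw [e1, e2, e3] at h
    exact h
  · intro u hu
    rw [Finset.mem_sdiff] at hu
    refine ⟨fun h => hu.2 (Finset.mem_inter.1 h).2, fun h => (Finset.mem_sdiff.1 h).2 hu.1⟩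

end Pool.Agent.H399.ON
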